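import Pool.Agent.H568R3.K5
import Pool.Agent.H568R3.Ham

/-!
# Redundantly rigid placements of unions of Hamilton cycles in `ℓ_q^d`

First part of the question: no. `K_5` is the edge-disjoint union of two Hamilton cycles and has no
redundantly rigid placement in `ℓ_∞^2`, and none in `ℓ_1^2`.

Second part: yes. Every edge-disjoint union of `d` Hamilton cycles has a redundantly rigid placement
in `ℓ_q^d` for every non-integral `q > 1`.
-/

set_option autoImplicit false

namespace Pool.Agent.Results.MP_7ac2f5_co.HamiltonUnions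

open scoped ENNReal
open Pool.Agent.H568R3

/-- The Hamilton cycle `0 1 2 3 4` of `K_5`. -/
def W0 : (⊤ : SimpleGraph (Fin 5)).Walk 0 0 :=
  .cons (show (⊤ : SimpleGraph (Fin 5)).Adj 0 1 by decide)
  (.cons (show (⊤ : SimpleGraph (Fin 5)).Adj 1 2 by decide)
  (.cons (show (⊤ : SimpleGraph (Fin 5)).Adj 2 3 by decide)
  (.cons (show (⊤ : SimpleGraph (Fin 5)).Adj 3 4 by decide)
  (.cons (show (⊤ : SimpleGraph (Fin 5)).Adj 4 0 by decide) .nil))))

/-- The Hamilton cycle `0 2 4 1 3` of `K_5`. -/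
def W1 : (⊤ : SimpleGraph (Fin 5)).Walk 0 0 :=
  .cons (show (⊤ : SimpleGraph (Fin 5)).Adj 0 2 by decide)
  (.cons (show (⊤ : SimpleGraph (Fin 5)).Adj 2 4 by decide)
  (.cons (show (⊤ : SimpleGraph (Fin 5)).Adj 4 1 by decide)
  (.cons (show (⊤ : SimpleGraph (Fin 5)).Adj 1 3 by decide)
  (.cons (show (⊤ : SimpleGraph (Fin 5)).Adj 3 0 by decide) .nil))))

theorem ham0 : W0.IsHamiltonianCycle := by
  rw [SimpleGraph.Walk.isHamiltonianCycle_iff_isCycle_and_support_count_tail_eq_one,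
    SimpleGraph.Walk.isCycle_def, SimpleGraph.Walk.isTrail_def]
  refine ⟨⟨by decide, by simp [W0], by decide⟩, by decide⟩

theorem ham1 : W1.IsHamiltonianCycle := by
  rw [SimpleGraph.Walk.isHamiltonianCycle_iff_isCycle_and_support_count_tail_eq_one,
    SimpleGraph.Walk.isCycle_def, SimpleGraph.Walk.isTrail_def]
  refine ⟨⟨by decide, by simp [W1], by decide⟩, by decide⟩

theorem k5_union : IsUnionOfHamiltonCycles 2 (⊤ : SimpleGraph (Fin 5)) := by
  refine ⟨fun _ => 0, ![W0, W1], ?_, ?_⟩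
  · intro i
    fin_cases i
    · exact ham0
    · exact ham1
  · intro e he
    have h : ∀ e : Sym2 (Fin 5), e ∈ (⊤ : SimpleGraph (Fin 5)).edgeSet →
        (e ∈ W0.edges ∧ e ∉ W1.edges) ∨ (e ∈ W1.edges ∧ e ∉ W0.edges) := by
      decide
    rcases h e he with ⟨h1, h2⟩ | ⟨h1, h2⟩
    · refine ⟨0, h1, ?_⟩
      intro j hj
      fin_cases j
      · rfl
      · exact absurd hj h2
    · refine ⟨1, h1, ?_⟩
      intro j hj
      fin_cases j
      · exact absurd hj h2
      · rfl

/-- `K_5` is the edge-disjoint union of two Hamilton cycles, but it has no redundantly rigid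
placement in `ℓ_∞^2` and none in `ℓ_1^2`; and for every `d ≥ 1` every graph which is the
edge-disjoint union of `d` Hamilton cycles has a redundantly rigid placement in `ℓ_q^d` for every
real number `q > 1` which is not an integer. -/
theorem result :
    (IsUnionOfHamiltonCycles 2 (⊤ : SimpleGraph (Fin 5)) ∧
      (∀ p : Fin 5 → Fin 2 → ℝ, ¬ RedundantlyRigid ∞ (⊤ : SimpleGraph (Fin 5)) p) ∧
      (∀ p : Fin 5 → Fin 2 → ℝ, ¬ RedundantlyRigid 1 (⊤ : SimpleGraph (Fin 5)) p)) ∧
    (∀ (V : Type) [DecidableEq V] (d : ℕ), 1 ≤ d → ∀ G : SimpleGraph V,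
      IsUnionOfHamiltonCycles d G → ∀ q : ℝ, 1 < q → (∀ m : ℤ, (m : ℝ) ≠ q) →
        ∃ p : V → Fin d → ℝ, RedundantlyRigid (ENNReal.ofReal q) G p) := by
  refine ⟨⟨k5_union, k5_top, k5_one⟩, ?_⟩
  intro V _ d hd G hG q hq hqn
  exact ham_redundant hd hG hq hqn

end Pool.Agent.Results.MP_7ac2f5_co.HamiltonUnions
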